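import Mathlib

set_option autoImplicit false

namespace Pool.Agent.Results.MP_9a0911_co.Example

/-- Every symbol occurs exactly once in each row and each column. -/
def IsLatin {n : ℕ} (L : Fin n → Fin n → Fin n) : Prop :=
  (∀ i, Function.Bijective fun j => L i j) ∧ ∀ j, Function.Bijective fun i => L i j

/-- Exactly `r` distinct ordered pairs occur on superimposing `L` and `M`. -/
def IsROrth {n : ℕ} (r : ℕ) (L M : Fin n → Fin n → Fin n) : Prop :=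
  (Finset.univ.image fun c : Fin n × Fin n => (L c.1 c.2, M c.1 c.2)).card = r

/-- `L` has a 2 x 2 Latin subsquare in rows `i, i'` and columns `j, j'`. -/
def Subsq {n : ℕ} (L : Fin n → Fin n → Fin n) (i i' j j' : Fin n) : Prop :=
  L i j = L i' j' ∧ L i j' = L i' j ∧ L i j ≠ L i j'

/-- Near-orthogonal pairs. -/
def NearOrth {n : ℕ} (L M : Fin n → Fin n → Fin n) : Prop :=
  IsROrth (n ^ 2 - 2) L M ∧ ∃ i i' j j' : Fin n, i ≠ i' ∧ j ≠ j' ∧ Subsq L i i' j j' ∧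
    Subsq M i i' j j' ∧ ({L i j, L i j'} : Finset (Fin n)) = {M i j, M i j'}

def L0 : Fin 6 → Fin 6 → Fin 6 :=
  ![![0, 1, 2, 3, 4, 5], ![1, 0, 3, 2, 5, 4], ![2, 3, 5, 4, 1, 0], ![3, 2, 4, 5, 0, 1],
    ![4, 5, 1, 0, 3, 2], ![5, 4, 0, 1, 2, 3]]

def M0 : Fin 6 → Fin 6 → Fin 6 :=
  ![![4, 2, 5, 0, 3, 1], ![3, 5, 2, 1, 4, 0], ![0, 4, 3, 5, 1, 2], ![1, 3, 4, 2, 0, 5],
    ![2, 0, 1, 3, 5, 4], ![5, 1, 0, 4, 2, 3]]

lemma noCommon : ∀ i i' j j' : Fin 6, ¬ (Subsq L0 i i' j j' ∧ Subsq M0 i i' j j') := by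
  unfold Subsq; decide +kernel

theorem result : ∃ (n : ℕ) (L M : Fin n → Fin n → Fin n), 2 ≤ n ∧ IsLatin L ∧ IsLatin M ∧
    IsROrth (n ^ 2 - 2) L M ∧
    ∀ σ : Equiv.Perm (Fin n), ¬ NearOrth L fun i j => σ (M i j) := by
  refine ⟨6, L0, M0, by norm_num, ?_, ?_, ?_, ?_⟩
  · unfold IsLatin; decide +kernel
  · unfold IsLatin; decide +kernel
  · unfold IsROrth; decide +kernel
  · rintro σ ⟨-, i, i', j, j', -, -, h1, ⟨h2, h3, h4⟩, -⟩
    exact noCommon i i' j j' ⟨h1, σ.injective h2, σ.injective h3, fun h => h4 (by simp only [h])⟩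

end Pool.Agent.Results.MP_9a0911_co.Example
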